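import Pool.Agent.Q236.CM.Ch

/-!
# MP_768c9c_nt: CMO functions with `S_f(x) = O(x^(-1/2-c))`; an affirmative answer to the question
of Kahane and Saias would disprove the Riemann hypothesis
-/

set_option autoImplicit false

namespace Pool.Agent.Results.MP_768c9c_nt.BeyondSquareRoot

open Filter Topology Finset

/-- `f` (only its values at `n ≥ 1` matter) is a CMO function: completely multiplicative, with
`∑ f(n)` convergent to `0` -/
structure IsCMO (f : ℕ → ℂ) : Prop where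
  one : f 1 = 1
  mul : ∀ m n : ℕ, 1 ≤ m → 1 ≤ n → f (m * n) = f m * f n
  sum_zero : Tendsto (fun N : ℕ => ∑ n ∈ Icc 1 N, f n) atTop (𝓝 0)

/-- the partial sum `S_f(x) = ∑_{n ≤ x} f(n)` -/
noncomputable def partialSum (f : ℕ → ℂ) (x : ℝ) : ℂ := ∑ n ∈ Icc 1 ⌊x⌋₊, f n

/-- some CMO function has `|S_f(x)| ≤ C x^(-1/2-c)` for all `x ≥ 1`, with constants `c, C > 0` -/
def PowerSaving : Prop := ∃ f : ℕ → ℂ, IsCMO f ∧ ∃ c C : ℝ, 0 < c ∧ 0 < C ∧
  ∀ x : ℝ, 1 ≤ x → ‖partialSum f x‖ ≤ C * x ^ (-(1 / 2 : ℝ) - c)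

/-- the length `2 ^ ⌊(1/2-δ) i⌋` -/
noncomputable def len (δ : ℝ) (i : ℕ) : ℕ := 2 ^ ⌊(1 / 2 - δ) * i⌋₊

open Classical in
/-- the indices `k < ⌊2^i / len⌋` for which the interval `(2^i + k len, 2^i + (k+1) len]` contains
fewer than `c len / i` primes -/
noncomputable def poor (c δ : ℝ) (i : ℕ) : Finset ℕ := (range (2 ^ i / len δ i)).filter (fun k =>
  (((Ioc (2 ^ i + k * len δ i) (2 ^ i + (k + 1) * len δ i)).filter Nat.Prime).card : ℝ) <
    c * len δ i / i)

/-- for some `c > 0` and all large `i`, at most `2^(3 δ i)` of the intervals of length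
`len δ i` (about `x^(1/2-δ)`, `x = 2^i`) into which `(2^i, 2^(i+1)]` is cut are poor in primes -/
def FewPoor (δ : ℝ) : Prop := ∃ c : ℝ, 0 < c ∧ ∃ i₀ : ℕ, ∀ i : ℕ, i₀ ≤ i →
  ((poor c δ i).card : ℝ) ≤ (2 : ℝ) ^ (3 * δ * i)

theorem powerSaving_of (h : Q236.CM.ConclC) : PowerSaving := by
  obtain ⟨f, c, C, hc, hC, h1, hm, hb⟩ := h
  refine ⟨f, ⟨h1, hm, ?_⟩, c, C * 2 ^ (1 / 2 + c), hc, by positivity, ?_⟩
  · rw [tendsto_zero_iff_norm_tendsto_zero]
    have h2 : Tendsto (fun N : ℕ => C * (N : ℝ) ^ (-(1 / 2 + c))) atTop (𝓝 (C * 0)) :=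
      ((tendsto_rpow_neg_atTop (by linarith)).comp tendsto_natCast_atTop_atTop).const_mul C
    rw [mul_zero] at h2
    refine squeeze_zero' (Eventually.of_forall fun N => norm_nonneg _) ?_ h2
    filter_upwards [eventually_ge_atTop 1] with N hN
    have e : -(1 / 2 : ℝ) - c = -(1 / 2 + c) := by ring
    have h3 := hb N hN
    rw [e] at h3
    exact h3
  · intro x hx
    have hx0 : 0 < x := by linarith
    have hN : 1 ≤ ⌊x⌋₊ := Nat.le_floor (by exact_mod_cast hx)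
    have h2 := hb ⌊x⌋₊ hN
    have hNR : (1 : ℝ) ≤ (⌊x⌋₊ : ℝ) := by exact_mod_cast hN
    have h3 : x / 2 ≤ (⌊x⌋₊ : ℝ) := by
      have := Nat.lt_floor_add_one x
      linarith
    have h4 : (⌊x⌋₊ : ℝ) ^ (-(1 / 2 : ℝ) - c) ≤ (x / 2) ^ (-(1 / 2 : ℝ) - c) :=
      Real.rpow_le_rpow_of_nonpos (by positivity) h3 (by linarith)
    have h5 : (x / 2) ^ (-(1 / 2 : ℝ) - c) = 2 ^ (1 / 2 + c) * x ^ (-(1 / 2 : ℝ) - c) := by
      rw [div_eq_mul_inv, Real.mul_rpow hx0.le (by norm_num), Real.inv_rpow (by norm_num),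
        ← Real.rpow_neg (by norm_num), mul_comm]
      congr 2
      ring
    calc ‖partialSum f x‖ ≤ C * (⌊x⌋₊ : ℝ) ^ (-(1 / 2 : ℝ) - c) := h2
      _ ≤ C * (2 ^ (1 / 2 + c) * x ^ (-(1 / 2 : ℝ) - c)) := by
          rw [← h5]
          exact mul_le_mul_of_nonneg_left h4 hC.le
      _ = _ := by ring

theorem rare_of {δ : ℝ} (h : FewPoor δ) : Q236.CM.RarePoorCells δ := by
  obtain ⟨c, hc, i₀, h⟩ := h
  refine ⟨c, hc, i₀, fun i hi => ?_⟩
  refine le_trans (le_of_eq ?_) (h i hi)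
  congr 1

/-- There is `κ > 0` such that at least one of the following holds: (a) some CMO function has
`|S_f(x)| ≤ C x^(-1/2-c)` for all `x ≥ 1`, with constants `c, C > 0`; (b) the Riemann zeta function
has a zero with real part in `(1/2 + κ, 1)`, and no `L(s,χ)` with `χ` a non-principal Dirichlet character
has a zero with real part `> 1/2`, and for no `δ` in `(0, 4κ]` are there few intervals of length
about `x^(1/2-δ)` which are poor in primes. In particular (a) holds under the Riemann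
hypothesis, so that an affirmative answer to the question would disprove the Riemann hypothesis. -/
theorem result : ∃ κ : ℝ, 0 < κ ∧ (PowerSaving ∨
    ((∃ s : ℂ, 1 / 2 + κ < s.re ∧ s.re < 1 ∧ riemannZeta s = 0) ∧
      (∀ (q : ℕ) [NeZero q] (χ : DirichletCharacter ℂ q), χ ≠ 1 →
        ∀ s : ℂ, 1 / 2 < s.re → χ.LFunction s ≠ 0) ∧
      ∀ δ : ℝ, 0 < δ → δ ≤ 4 * κ → ¬ FewPoor δ)) := by
  obtain ⟨κ, hκ, -, h1, h2⟩ := Q236.CM.criteria
  refine ⟨κ, hκ, ?_⟩
  by_cases hP : PowerSaving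
  · exact Or.inl hP
  · refine Or.inr ⟨?_, ?_, ?_⟩
    · by_contra hcon
      push Not at hcon
      refine hP (powerSaving_of (h1 fun s hs => ?_).toC)
      rcases lt_or_ge s.re 1 with h | h
      · exact hcon s hs h
      · exact riemannZeta_ne_zero_of_one_le_re h
    · intro q _ χ hχ s hs h0
      exact hP (powerSaving_of (Q236.CM.concl_char hχ hs h0))
    · intro δ hδ hδ' h
      exact hP (powerSaving_of (h2 δ hδ hδ' (rare_of h)).toC)

end Pool.Agent.Results.MP_768c9c_nt.BeyondSquareRoot
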